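import Mathlib
import Pool.Agent.H64.BorsukUlam

/-!
# The Szemerédi–Trotter bound for rich lines

A set of `N` points of the plane has at most `C N^2 / k^3` lines with at least `k` of its points,
if `k^2 ≤ N`.  The proof is the polynomial partitioning argument, with sign cells of a product of
polynomials which successively bisect the cells (polynomial ham sandwich from Borsuk–Ulam).
-/

open Finset

namespace Pool.H42.ST

noncomputable section

open scoped Classical

/-- `w` lies on the line through `p` and `q`. -/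
def col (p q w : ℝ × ℝ) : Prop := (q.1 - p.1) * (w.2 - p.2) = (q.2 - p.2) * (w.1 - p.1)

/-- the points of `P` on the line through `p` and `q`. -/
def lineOf (P : Finset (ℝ × ℝ)) (p q : ℝ × ℝ) : Finset (ℝ × ℝ) := P.filter (col p q)

/-- The restriction of `f` to every line is a polynomial of degree at most `D`. -/
def PolyLE (D : ℕ) (f : ℝ × ℝ → ℝ) : Prop :=
  ∀ a b c e : ℝ, ∃ q : Polynomial ℝ, q.natDegree ≤ D ∧ ∀ t, q.eval t = f (a + b * t, c + e * t)

lemma PolyLE.mono {D D' : ℕ} {f : ℝ × ℝ → ℝ} (h : PolyLE D f) (hD : D ≤ D') : PolyLE D' f := by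
  intro a b c e
  obtain ⟨q, hq, hq'⟩ := h a b c e
  exact ⟨q, hq.trans hD, hq'⟩

lemma PolyLE.mul {D D' : ℕ} {f g : ℝ × ℝ → ℝ} (hf : PolyLE D f) (hg : PolyLE D' g) :
    PolyLE (D + D') (fun x => f x * g x) := by
  intro a b c e
  obtain ⟨q, hq, hq'⟩ := hf a b c e
  obtain ⟨r, hr, hr'⟩ := hg a b c e
  refine ⟨q * r, Polynomial.natDegree_mul_le.trans (by omega), fun t => ?_⟩
  rw [Polynomial.eval_mul, hq', hr']

lemma exists_mul_ne_zero {D D' : ℕ} {f g : ℝ × ℝ → ℝ} (hf : PolyLE D f) (hg : PolyLE D' g)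
    (hf0 : ∃ x, f x ≠ 0) (hg0 : ∃ x, g x ≠ 0) : ∃ x, f x * g x ≠ 0 := by
  obtain ⟨x, hx⟩ := hf0
  obtain ⟨y, hy⟩ := hg0
  obtain ⟨q, -, hq'⟩ := hf x.1 (y.1 - x.1) x.2 (y.2 - x.2)
  obtain ⟨r, -, hr'⟩ := hg x.1 (y.1 - x.1) x.2 (y.2 - x.2)
  have hq0 : q ≠ 0 := by
    rintro rfl
    have := hq' 0
    simp at this
    exact hx this.symm
  have hr0 : r ≠ 0 := by
    rintro rfl
    have := hr' 1
    simp at this
    exact hy this.symm
  have hqr : q * r ≠ 0 := mul_ne_zero hq0 hr0
  obtain ⟨t, ht⟩ : ∃ t, (q * r).eval t ≠ 0 := by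
    by_contra hcon
    push Not at hcon
    exact hqr (Polynomial.funext (by simpa using hcon))
  refine ⟨(x.1 + (y.1 - x.1) * t, x.2 + (y.2 - x.2) * t), ?_⟩
  rw [← hq', ← hr', ← Polynomial.eval_mul]
  exact ht

/-- Evaluation of a polynomial with bidegree at most `d`. -/
def ev (d : ℕ) (c : Fin (d + 1) × Fin (d + 1) → ℝ) (x : ℝ × ℝ) : ℝ :=
  ∑ ij, c ij * (x.1 ^ (ij.1 : ℕ) * x.2 ^ (ij.2 : ℕ))

lemma ev_polyLE (d : ℕ) (c : Fin (d + 1) × Fin (d + 1) → ℝ) : PolyLE (2 * d) (ev d c) := by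
  intro a b c' e
  refine ⟨∑ ij, Polynomial.C (c ij) * ((Polynomial.C a + Polynomial.C b * Polynomial.X) ^ (ij.1 : ℕ)
    * (Polynomial.C c' + Polynomial.C e * Polynomial.X) ^ (ij.2 : ℕ)), ?_, ?_⟩
  · apply Polynomial.natDegree_sum_le_of_forall_le
    intro ij _
    have h1 : (Polynomial.C a + Polynomial.C b * Polynomial.X).natDegree ≤ 1 := by
      compute_degree
    have h2 : (Polynomial.C c' + Polynomial.C e * Polynomial.X).natDegree ≤ 1 := by
      compute_degree
    refine (Polynomial.natDegree_C_mul_le _ _).trans ?_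
    refine Polynomial.natDegree_mul_le.trans ?_
    have h3 := Polynomial.natDegree_pow_le_of_le (ij.1 : ℕ) h1
    have h4 := Polynomial.natDegree_pow_le_of_le (ij.2 : ℕ) h2
    have h5 := ij.1.2
    have h6 := ij.2.2
    omega
  · intro t
    rw [Polynomial.eval_finsetSum]
    simp only [Polynomial.eval_mul, Polynomial.eval_C, Polynomial.eval_pow, Polynomial.eval_add,
      Polynomial.eval_X, ev]

lemma ev_ne_zero (d : ℕ) (c : Fin (d + 1) × Fin (d + 1) → ℝ) (hc : c ≠ 0) :
    ∃ x, ev d c x ≠ 0 := by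
  obtain ⟨⟨i0, j0⟩, h0⟩ : ∃ ij, c ij ≠ 0 := by
    by_contra hcon
    push Not at hcon
    exact hc (funext hcon)
  -- the coefficient of `x ^ i0`
  let A : Fin (d + 1) → Polynomial ℝ := fun i => ∑ j : Fin (d + 1), Polynomial.monomial (j : ℕ) (c (i, j))
  have hA : A i0 ≠ 0 := by
    intro h
    have h1 : (A i0).coeff (j0 : ℕ) = 0 := by rw [h]; simp
    apply h0
    simp only [A, Polynomial.finsetSum_coeff, Polynomial.coeff_monomial] at h1
    rw [Finset.sum_eq_single j0] at h1
    · simpa using h1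
    · intro j _ hj
      rw [if_neg]
      intro h
      exact hj (Fin.ext h)
    · simp
  obtain ⟨y, hy⟩ : ∃ t, (A i0).eval t ≠ 0 := by
    by_contra hcon
    push Not at hcon
    exact hA (Polynomial.funext (by simpa using hcon))
  let B : Polynomial ℝ := ∑ i : Fin (d + 1), Polynomial.monomial (i : ℕ) ((A i).eval y)
  have hB : B ≠ 0 := by
    intro h
    have h1 : B.coeff (i0 : ℕ) = 0 := by rw [h]; simp
    apply hy
    simp only [B, Polynomial.finsetSum_coeff, Polynomial.coeff_monomial] at h1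
    rw [Finset.sum_eq_single i0] at h1
    · simpa using h1
    · intro j _ hj
      rw [if_neg]
      intro h
      exact hj (Fin.ext h)
    · simp
  obtain ⟨x, hx⟩ : ∃ t, B.eval t ≠ 0 := by
    by_contra hcon
    push Not at hcon
    exact hB (Polynomial.funext (by simpa using hcon))
  refine ⟨(x, y), ?_⟩
  convert hx using 1
  simp only [ev, B, A, Polynomial.eval_finsetSum, Polynomial.eval_monomial]
  rw [Fintype.sum_prod_type]
  refine Finset.sum_congr rfl fun i _ => ?_
  rw [Finset.sum_mul]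
  refine Finset.sum_congr rfl fun j _ => ?_
  ring

lemma ev_continuous (d : ℕ) (x : ℝ × ℝ) : Continuous (fun c => ev d c x) := by
  unfold ev
  fun_prop

lemma ev_neg (d : ℕ) (c : Fin (d + 1) × Fin (d + 1) → ℝ) (x : ℝ × ℝ) :
    ev d (-c) x = - ev d c x := by
  simp [ev, Finset.sum_neg_distrib]

/-- truncation to `[-1, 1]`. -/
def clamp (t : ℝ) : ℝ := max (-1) (min 1 t)

lemma clamp_neg (t : ℝ) : clamp (-t) = - clamp t := by
  unfold clamp
  rw [max_def, max_def, min_def, min_def]
  split_ifs <;> linarith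

lemma clamp_le (t : ℝ) : clamp t ≤ 1 := max_le (by norm_num) (min_le_left _ _)

lemma le_clamp (t : ℝ) : -1 ≤ clamp t := le_max_left _ _

lemma clamp_eq_one {t : ℝ} (h : 1 ≤ t) : clamp t = 1 := by
  unfold clamp
  rw [min_eq_left h]
  norm_num

lemma clamp_continuous : Continuous clamp := by
  unfold clamp
  fun_prop

/-- A function family with zero clamp sum has no strict majority of large values. -/
lemma card_le_of_sum_clamp {S : Finset (ℝ × ℝ)} {g : ℝ × ℝ → ℝ} (hs : ∑ p ∈ S, clamp (g p) = 0)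
    {T : Finset (ℝ × ℝ)} (hT : T ⊆ S) (h1 : ∀ p ∈ T, 1 ≤ g p) : 2 * T.card ≤ S.card := by
  have h2 : ∑ p ∈ T, clamp (g p) = T.card := by
    rw [Finset.sum_congr rfl (fun p hp => clamp_eq_one (h1 p hp))]
    simp
  have h3 : -((S \ T).card : ℝ) ≤ ∑ p ∈ S \ T, clamp (g p) := by
    have : ∑ p ∈ S \ T, (-1 : ℝ) ≤ ∑ p ∈ S \ T, clamp (g p) :=
      Finset.sum_le_sum fun p _ => le_clamp _
    simpa using this
  have h4 := Finset.sum_sdiff (f := fun p => clamp (g p)) hT
  have h5 : ((S \ T).card : ℝ) = S.card - T.card := by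
    rw [Finset.cast_card_sdiff hT]
  have h6 : (2 * T.card : ℝ) ≤ S.card := by linarith
  exact_mod_cast h6

/-- **Polynomial ham sandwich**. -/
lemma bisect (d m : ℕ) (hm : m < (d + 1) ^ 2) (S : Fin m → Finset (ℝ × ℝ)) :
    ∃ c : Fin (d + 1) × Fin (d + 1) → ℝ, c ≠ 0 ∧
      ∀ i, 2 * ((S i).filter (fun p => 0 < ev d c p)).card ≤ (S i).card ∧
        2 * ((S i).filter (fun p => ev d c p < 0)).card ≤ (S i).card := by
  have hfin : Module.finrank ℝ (Fin m → ℝ) < Module.finrank ℝ (Fin (d + 1) × Fin (d + 1) → ℝ) := by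
    simp only [Module.finrank_fintype_fun_eq_card, Fintype.card_fin, Fintype.card_prod]
    nlinarith
  have key : ∀ n : ℕ, ∃ c ∈ Metric.sphere (0 : Fin (d + 1) × Fin (d + 1) → ℝ) 1,
      ∀ i, ∑ p ∈ S i, clamp ((n + 1) * ev d c p) = 0 := by
    intro n
    obtain ⟨c, hc, h0⟩ := Pool.Agent.H64.BU.borsukUlam hfin
      (fun c i => ∑ p ∈ S i, clamp ((n + 1) * ev d c p)) (by
        apply Continuous.continuousOn
        refine continuous_pi fun i => continuous_finsetSum _ fun p _ => ?_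
        exact clamp_continuous.comp (continuous_const.mul (ev_continuous d p))) (by
        intro c _
        funext i
        simp only [Pi.neg_apply, ← Finset.sum_neg_distrib]
        refine Finset.sum_congr rfl fun p _ => ?_
        rw [ev_neg, mul_neg, clamp_neg])
    exact ⟨c, hc, fun i => congrFun h0 i⟩
  choose c hc h0 using key
  obtain ⟨c', hc', φ, hφ, hlim⟩ := (isCompact_sphere (0 : Fin (d + 1) × Fin (d + 1) → ℝ) 1).tendsto_subseq hc
  have hev : ∀ p, Filter.Tendsto (fun n => ev d (c (φ n)) p) Filter.atTop (nhds (ev d c' p)) :=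
    fun p => ((ev_continuous d p).tendsto c').comp hlim
  have hbig : ∀ p, 0 < ev d c' p → ∀ᶠ n in Filter.atTop, 1 ≤ ((φ n : ℕ) + 1 : ℝ) * ev d (c (φ n)) p := by
    intro p hp
    have h1 : ∀ᶠ n in Filter.atTop, ev d c' p / 2 < ev d (c (φ n)) p :=
      (hev p).eventually (lt_mem_nhds (by linarith))
    have h2 : Filter.Tendsto (fun n => ((φ n : ℕ) + 1 : ℝ)) Filter.atTop Filter.atTop :=
      Filter.tendsto_atTop_add_const_right _ _ (tendsto_natCast_atTop_atTop.comp hφ.tendsto_atTop)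
    filter_upwards [h1, h2.eventually_ge_atTop (2 / ev d c' p)] with n hn1 hn2
    have h3 : (2 / ev d c' p) * (ev d c' p / 2) = 1 := by field_simp
    have h4 : 0 < 2 / ev d c' p := by positivity
    calc (1 : ℝ) = (2 / ev d c' p) * (ev d c' p / 2) := h3.symm
      _ ≤ ((φ n : ℕ) + 1 : ℝ) * ev d (c (φ n)) p := by
        apply mul_le_mul hn2 hn1.le (by positivity) (by positivity)
  have hsmall : ∀ p, ev d c' p < 0 → ∀ᶠ n in Filter.atTop, 1 ≤ ((φ n : ℕ) + 1 : ℝ) * ev d (-(c (φ n))) p := by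
    intro p hp
    have h1 : ∀ᶠ n in Filter.atTop, ev d (c (φ n)) p < ev d c' p / 2 :=
      (hev p).eventually (gt_mem_nhds (by linarith))
    have h2 : Filter.Tendsto (fun n => ((φ n : ℕ) + 1 : ℝ)) Filter.atTop Filter.atTop :=
      Filter.tendsto_atTop_add_const_right _ _ (tendsto_natCast_atTop_atTop.comp hφ.tendsto_atTop)
    have hpos : 0 < -ev d c' p := by linarith
    filter_upwards [h1, h2.eventually_ge_atTop (2 / (-ev d c' p))] with n hn1 hn2
    have h3 : (2 / (-ev d c' p)) * ((-ev d c' p) / 2) = 1 := by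
      have hne := hpos.ne'
      generalize -ev d c' p = u at hne ⊢
      field_simp
    rw [ev_neg]
    calc (1 : ℝ) = (2 / (-ev d c' p)) * ((-ev d c' p) / 2) := h3.symm
      _ ≤ ((φ n : ℕ) + 1 : ℝ) * (-ev d (c (φ n)) p) := by
        apply mul_le_mul hn2 (by linarith) (by positivity) (by positivity)
  refine ⟨c', ?_, fun i => ⟨?_, ?_⟩⟩
  · rintro rfl
    simp at hc'
  · have h1 : ∀ᶠ n in Filter.atTop, ∀ p ∈ (S i).filter (fun p => 0 < ev d c' p),
        1 ≤ ((φ n : ℕ) + 1 : ℝ) * ev d (c (φ n)) p := by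
      rw [Filter.eventually_all_finset]
      intro p hp
      exact hbig p (Finset.mem_filter.mp hp).2
    obtain ⟨n, hn⟩ := h1.exists
    exact card_le_of_sum_clamp (h0 (φ n) i) (Finset.filter_subset _ _) hn
  · have h1 : ∀ᶠ n in Filter.atTop, ∀ p ∈ (S i).filter (fun p => ev d c' p < 0),
        1 ≤ ((φ n : ℕ) + 1 : ℝ) * ev d (-(c (φ n))) p := by
      rw [Filter.eventually_all_finset]
      intro p hp
      exact hsmall p (Finset.mem_filter.mp hp).2
    obtain ⟨n, hn⟩ := h1.exists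
    refine card_le_of_sum_clamp (g := fun p => ((φ n : ℕ) + 1 : ℝ) * ev d (-(c (φ n))) p) ?_
      (Finset.filter_subset _ _) hn
    have h2 := h0 (φ n) i
    have h3 : ∑ p ∈ S i, clamp (((φ n : ℕ) + 1 : ℝ) * ev d (-(c (φ n))) p) =
        -∑ p ∈ S i, clamp (((φ n : ℕ) + 1 : ℝ) * ev d (c (φ n)) p) := by
      rw [← Finset.sum_neg_distrib]
      refine Finset.sum_congr rfl fun p _ => ?_
      rw [ev_neg, mul_neg, clamp_neg]
    rw [h3, h2, neg_zero]

/-- A partition of `P` into at most `M` cells of at most `#P / M` points by a polynomial of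
degree at most `D`. -/
def Part (P : Finset (ℝ × ℝ)) (D M : ℕ) : Prop :=
  ∃ (F : ℝ × ℝ → ℝ) (lab : ℝ × ℝ → ℕ), PolyLE D F ∧ (∃ x, F x ≠ 0) ∧ (∀ p, lab p < M) ∧
    (∀ a b c e t₁ t₂ : ℝ, t₁ ≤ t₂ → (∀ t ∈ Set.Icc t₁ t₂, F (a + b * t, c + e * t) ≠ 0) →
      lab (a + b * t₁, c + e * t₁) = lab (a + b * t₂, c + e * t₂)) ∧
    ∀ v, M * (P.filter (fun p => F p ≠ 0 ∧ lab p = v)).card ≤ P.card

lemma Part.base (P : Finset (ℝ × ℝ)) : Part P 0 1 := by
  refine ⟨fun _ => 1, fun _ => 0, ?_, ⟨0, one_ne_zero⟩, fun _ => Nat.one_pos, ?_, ?_⟩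
  · intro a b c e
    exact ⟨1, by simp, by simp⟩
  · intros
    rfl
  · intro v
    rw [one_mul]
    exact Finset.card_filter_le _ _

lemma pos_iff_of_ne_zero {q : Polynomial ℝ} {t₁ t₂ : ℝ} (h : t₁ ≤ t₂)
    (hne : ∀ t ∈ Set.Icc t₁ t₂, q.eval t ≠ 0) : 0 < q.eval t₁ ↔ 0 < q.eval t₂ := by
  have hc : ContinuousOn (fun t => q.eval t) (Set.Icc t₁ t₂) := q.continuous.continuousOn
  constructor
  · intro h1
    by_contra h2
    push Not at h2
    obtain ⟨t, ht, ht0⟩ := intermediate_value_Icc' h hc ⟨h2, h1.le⟩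
    exact hne t ht ht0
  · intro h1
    by_contra h2
    push Not at h2
    obtain ⟨t, ht, ht0⟩ := intermediate_value_Icc h hc ⟨h2, h1.le⟩
    exact hne t ht ht0

lemma Part.step {P : Finset (ℝ × ℝ)} {D M : ℕ} (h : Part P D M) (d : ℕ) (hd : M < (d + 1) ^ 2) :
    Part P (D + 2 * d) (2 * M) := by
  obtain ⟨F, lab, hF, hF0, hlab, hseg, hcard⟩ := h
  obtain ⟨c, hc, hb⟩ := bisect d M hd (fun v => P.filter (fun p => F p ≠ 0 ∧ lab p = v))
  have hev := ev_polyLE d c
  refine ⟨fun x => F x * ev d c x, fun x => 2 * lab x + if 0 < ev d c x then 1 else 0,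
    hF.mul hev, exists_mul_ne_zero hF hev hF0 (ev_ne_zero d c hc), ?_, ?_, ?_⟩
  · intro p
    have := hlab p
    dsimp only
    split_ifs <;> omega
  · intro a b c' e t₁ t₂ ht hne
    have h1 : lab (a + b * t₁, c' + e * t₁) = lab (a + b * t₂, c' + e * t₂) :=
      hseg a b c' e t₁ t₂ ht (fun t ht => left_ne_zero_of_mul (hne t ht))
    obtain ⟨q, -, hq⟩ := hev a b c' e
    have h2 := pos_iff_of_ne_zero ht (q := q) (by
      intro t ht
      rw [hq]
      exact right_ne_zero_of_mul (hne t ht))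
    rw [hq, hq] at h2
    dsimp only
    rw [h1]
    simp only [h2]
  · intro v
    rcases Nat.lt_or_ge (v / 2) M with hv | hv
    · have h1 := hb ⟨v / 2, hv⟩
      have h2 := hcard (v / 2)
      dsimp only at h1
      set W := P.filter (fun p => F p ≠ 0 ∧ lab p = v / 2) with hW
      have h3 : P.filter (fun p => F p * ev d c p ≠ 0 ∧
          (2 * lab p + if 0 < ev d c p then 1 else 0) = v) ⊆ W.filter (fun p => 0 < ev d c p) ∨
          P.filter (fun p => F p * ev d c p ≠ 0 ∧
          (2 * lab p + if 0 < ev d c p then 1 else 0) = v) ⊆ W.filter (fun p => ev d c p < 0) := by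
        rcases Nat.even_or_odd v with ⟨w, hw⟩ | ⟨w, hw⟩
        · right
          intro p hp
          rw [Finset.mem_filter] at hp
          obtain ⟨hpP, hp1, hp2⟩ := hp
          by_cases h0 : 0 < ev d c p
          · rw [if_pos h0] at hp2
            omega
          · rw [if_neg h0] at hp2
            have h5 : ev d c p ≠ 0 := right_ne_zero_of_mul hp1
            rw [Finset.mem_filter, hW, Finset.mem_filter]
            refine ⟨⟨hpP, left_ne_zero_of_mul hp1, by omega⟩, lt_of_le_of_ne (not_lt.mp h0) h5⟩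
        · left
          intro p hp
          rw [Finset.mem_filter] at hp
          obtain ⟨hpP, hp1, hp2⟩ := hp
          by_cases h0 : 0 < ev d c p
          · rw [if_pos h0] at hp2
            rw [Finset.mem_filter, hW, Finset.mem_filter]
            exact ⟨⟨hpP, left_ne_zero_of_mul hp1, by omega⟩, h0⟩
          · rw [if_neg h0] at hp2
            omega
      have h4 : 2 * (P.filter (fun p => F p * ev d c p ≠ 0 ∧
          (2 * lab p + if 0 < ev d c p then 1 else 0) = v)).card ≤ W.card := by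
        rcases h3 with h3 | h3
        · exact (Nat.mul_le_mul_left 2 (Finset.card_le_card h3)).trans h1.1
        · exact (Nat.mul_le_mul_left 2 (Finset.card_le_card h3)).trans h1.2
      calc 2 * M * (P.filter (fun p => F p * ev d c p ≠ 0 ∧
          (2 * lab p + if 0 < ev d c p then 1 else 0) = v)).card
          = M * (2 * (P.filter (fun p => F p * ev d c p ≠ 0 ∧
          (2 * lab p + if 0 < ev d c p then 1 else 0) = v)).card) := by ring
        _ ≤ M * W.card := Nat.mul_le_mul_left M h4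
        _ ≤ P.card := h2
    · have h1 : P.filter (fun p => F p * ev d c p ≠ 0 ∧
          (2 * lab p + if 0 < ev d c p then 1 else 0) = v) = ∅ := by
        apply Finset.filter_eq_empty_iff.mpr
        rintro p - ⟨-, hp⟩
        have := hlab p
        have h2 : v / 2 = lab p := by
          rw [← hp]
          split_ifs <;> omega
        omega
      rw [h1]
      simp

lemma part_pow (P : Finset (ℝ × ℝ)) (s : ℕ) : ∃ D, D + 6 ≤ 6 * 2 ^ s ∧ Part P D (4 ^ s) := by
  induction s with
  | zero => exact ⟨0, by norm_num, Part.base P⟩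
  | succ s ih =>
    obtain ⟨D, hD, hP⟩ := ih
    have h4 : (4 : ℕ) ^ s = 2 ^ s * 2 ^ s := by
      rw [← mul_pow]
      norm_num
    have hpos : 0 < 2 ^ s := by positivity
    have h1 := hP.step (2 ^ s) (by rw [h4]; nlinarith)
    have h2 := h1.step (2 ^ (s + 1)) (by rw [h4, pow_succ 2 s]; nlinarith)
    refine ⟨D + 2 * 2 ^ s + 2 * 2 ^ (s + 1), ?_, ?_⟩
    · rw [pow_succ]
      omega
    · convert h2 using 1
      rw [pow_succ]
      ring

/-- the cross product of `z` and `u`. -/
def cr (z u : ℝ × ℝ) : ℝ := z.1 * u.2 - z.2 * u.1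

lemma exists_param {p u z : ℝ × ℝ} (hu : u ≠ 0) (h : cr (z - p) u = 0) :
    ∃ t : ℝ, z = (p.1 + u.1 * t, p.2 + u.2 * t) := by
  unfold cr at h
  simp only [Prod.fst_sub, Prod.snd_sub] at h
  by_cases h1 : u.1 = 0
  · have h2 : u.2 ≠ 0 := fun h2 => hu (Prod.ext h1 h2)
    refine ⟨(z.2 - p.2) / u.2, ?_⟩
    rw [h1] at h ⊢
    have h3 : z.1 - p.1 = 0 := by
      rcases mul_eq_zero.mp (show (z.1 - p.1) * u.2 = 0 by linarith) with h | h
      · exact h
      · exact absurd h h2
    refine Prod.ext ?_ ?_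
    · simp only [zero_mul]; linarith
    · simp only; field_simp; ring
  · refine ⟨(z.1 - p.1) / u.1, Prod.ext ?_ ?_⟩
    · simp only; field_simp; ring
    · simp only; field_simp; linarith

lemma col_iff {p q w : ℝ × ℝ} : col p q w ↔ cr (w - p) (q - p) = 0 := by
  unfold col cr
  simp only [Prod.fst_sub, Prod.snd_sub]
  constructor <;> intro h <;> linarith

lemma finite_lin {α β : ℝ} (h : α ≠ 0 ∨ β ≠ 0) : {s : ℝ | α - s * β = 0}.Finite := by
  by_cases hβ : β = 0
  · subst hβ
    have hα : α ≠ 0 := by simpa using h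
    convert Set.finite_empty
    ext s
    simp [hα]
  · apply (Set.finite_singleton (α / β)).subset
    intro s hs
    simp only [Set.mem_ofPred_eq] at hs
    rw [Set.mem_singleton_iff]
    field_simp
    linarith

/-- At most `D` lines lie in the zero set of a nonzero polynomial of degree at most `D`. -/
lemma card_lines_in_zero {D : ℕ} {F : ℝ × ℝ → ℝ} (hF : PolyLE D F) (hF0 : ∃ x, F x ≠ 0)
    {ι : Type} (I : Finset ι) (p u : ι → ℝ × ℝ) (hu : ∀ i ∈ I, u i ≠ 0)
    (hz : ∀ i ∈ I, ∀ t, F ((p i).1 + (u i).1 * t, (p i).2 + (u i).2 * t) = 0)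
    (hne : ∀ i ∈ I, ∀ j ∈ I, i ≠ j → ∃ z, cr (z - p i) (u i) = 0 ∧ cr (z - p j) (u j) ≠ 0) :
    I.card ≤ D := by
  obtain ⟨x, hx⟩ := hF0
  -- the offsets
  let a : ι → ℝ := fun i => cr (p i - x) (u i)
  have ha : ∀ i ∈ I, a i ≠ 0 := by
    intro i hi h
    have h1 : cr (x - p i) (u i) = 0 := by
      simp only [a, cr, Prod.fst_sub, Prod.snd_sub] at h ⊢
      linarith
    obtain ⟨t, ht⟩ := exists_param (hu i hi) h1
    apply hx
    rw [ht]
    exact hz i hi t
  have hline : ∀ i z, cr (z - p i) (u i) = cr (z - x) (u i) - a i := by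
    intro i z
    simp only [a, cr, Prod.fst_sub, Prod.snd_sub]
    ring
  -- the bad slopes
  have hb1 : (⋃ i ∈ (I : Set ι), {s : ℝ | (u i).2 - s * (u i).1 = 0}).Finite := by
    apply Set.Finite.biUnion I.finite_toSet
    intro i hi
    apply finite_lin
    by_contra hcon
    push Not at hcon
    exact hu i hi (Prod.ext hcon.2 hcon.1)
  have hb2 : (⋃ ij ∈ ((I ×ˢ I).filter (fun ij => ij.1 ≠ ij.2) : Set (ι × ι)),
      {s : ℝ | (a ij.1 * (u ij.2).2 - a ij.2 * (u ij.1).2) -
        s * (a ij.1 * (u ij.2).1 - a ij.2 * (u ij.1).1) = 0}).Finite := by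
    apply Set.Finite.biUnion (Finset.finite_toSet _)
    rintro ⟨i, j⟩ hij
    simp only [Finset.coe_filter, Finset.mem_product, Set.mem_ofPred_eq] at hij
    obtain ⟨⟨hi, hj⟩, hij⟩ := hij
    apply finite_lin
    by_contra hcon
    push Not at hcon
    obtain ⟨h1, h2⟩ := hcon
    obtain ⟨z, hz1, hz2⟩ := hne i hi j hj hij
    rw [hline] at hz1 hz2
    apply hz2
    have h3 : a i * (cr (z - x) (u j) - a j) = 0 := by
      have h4 : a i * cr (z - x) (u j) = a j * cr (z - x) (u i) := by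
        simp only [cr]
        have h5 : a i * (u j).2 = a j * (u i).2 := by linarith
        have h6 : a i * (u j).1 = a j * (u i).1 := by linarith
        calc a i * ((z - x).1 * (u j).2 - (z - x).2 * (u j).1)
            = (z - x).1 * (a i * (u j).2) - (z - x).2 * (a i * (u j).1) := by ring
          _ = (z - x).1 * (a j * (u i).2) - (z - x).2 * (a j * (u i).1) := by rw [h5, h6]
          _ = _ := by ring
      have h7 : cr (z - x) (u i) = a i := by linarith
      rw [mul_sub, h4, h7]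
      ring
    rcases mul_eq_zero.mp h3 with h | h
    · exact absurd h (ha i hi)
    · exact h
  obtain ⟨s, hs⟩ := (hb1.union hb2).exists_notMem
  rw [Set.mem_union, not_or] at hs
  have hs1 : ∀ i ∈ I, (u i).2 - s * (u i).1 ≠ 0 := by
    intro i hi h
    apply hs.1
    simp only [Set.mem_iUnion]
    exact ⟨i, hi, h⟩
  have hs2 : ∀ i ∈ I, ∀ j ∈ I, i ≠ j → (a i * (u j).2 - a j * (u i).2) -
        s * (a i * (u j).1 - a j * (u i).1) ≠ 0 := by
    intro i hi j hj hij h
    apply hs.2
    simp only [Set.mem_iUnion]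
    refine ⟨(i, j), ?_, h⟩
    simp [hi, hj, hij]
  obtain ⟨q, hq, hq'⟩ := hF x.1 1 x.2 s
  have hq0 : q ≠ 0 := by
    rintro rfl
    have := hq' 0
    simp at this
    exact hx this.symm
  let T : ι → ℝ := fun i => a i / ((u i).2 - s * (u i).1)
  have hroot : ∀ i ∈ I, T i ∈ q.roots.toFinset := by
    intro i hi
    rw [Multiset.mem_toFinset, Polynomial.mem_roots hq0, Polynomial.IsRoot.def, hq']
    have h1 : cr ((x.1 + 1 * T i, x.2 + s * T i) - p i) (u i) = 0 := by
      rw [hline]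
      have h2 : T i * ((u i).2 - s * (u i).1) = a i := div_mul_cancel₀ _ (hs1 i hi)
      simp only [cr, Prod.fst_sub, Prod.snd_sub]
      linarith
    obtain ⟨t, ht⟩ := exists_param (hu i hi) h1
    rw [ht]
    exact hz i hi t
  have hinj : ∀ i ∈ I, ∀ j ∈ I, T i = T j → i = j := by
    intro i hi j hj h
    by_contra hij
    apply hs2 i hi j hj hij
    simp only [T] at h
    rw [div_eq_div_iff (hs1 i hi) (hs1 j hj)] at h
    linarith
  calc I.card = (I.image T).card := (Finset.card_image_of_injOn (fun i hi j hj h => hinj i hi j hj h)).symm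
    _ ≤ q.roots.toFinset.card := by
      apply Finset.card_le_card
      intro t ht
      obtain ⟨i, hi, rfl⟩ := Finset.mem_image.mp ht
      exact hroot i hi
    _ ≤ Multiset.card q.roots := Multiset.toFinset_card_le _
    _ ≤ q.natDegree := Polynomial.card_roots' q
    _ ≤ D := hq

/-- The pairs of distinct points of `P` in the same cell. -/
def cellPairs (P : Finset (ℝ × ℝ)) (F : ℝ × ℝ → ℝ) (lab : ℝ × ℝ → ℕ) : Finset ((ℝ × ℝ) × (ℝ × ℝ)) :=
  (P ×ˢ P).filter (fun x => x.1 ≠ x.2 ∧ F x.2 ≠ 0 ∧ lab x.1 = lab x.2)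

lemma card_cellPairs {P : Finset (ℝ × ℝ)} {F : ℝ × ℝ → ℝ} {lab : ℝ × ℝ → ℕ} {M : ℕ}
    (h : ∀ v, M * (P.filter (fun p => F p ≠ 0 ∧ lab p = v)).card ≤ P.card) :
    M * (cellPairs P F lab).card ≤ P.card ^ 2 := by
  have h1 : cellPairs P F lab ⊆
      P.biUnion (fun w => (P.filter (fun p => F p ≠ 0 ∧ lab p = lab w)).image (fun v => (w, v))) := by
    rintro ⟨w, v⟩ hx
    simp only [cellPairs, Finset.mem_filter, Finset.mem_product] at hx
    simp only [Finset.mem_biUnion, Finset.mem_image, Finset.mem_filter]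
    exact ⟨w, hx.1.1, v, ⟨hx.1.2, hx.2.2.1, hx.2.2.2.symm⟩, rfl⟩
  calc M * (cellPairs P F lab).card
      ≤ M * (∑ w ∈ P, ((P.filter (fun p => F p ≠ 0 ∧ lab p = lab w)).image (fun v => (w, v))).card) :=
        Nat.mul_le_mul_left _ ((Finset.card_le_card h1).trans Finset.card_biUnion_le)
    _ ≤ M * (∑ w ∈ P, (P.filter (fun p => F p ≠ 0 ∧ lab p = lab w)).card) :=
        Nat.mul_le_mul_left _ (Finset.sum_le_sum fun w _ => Finset.card_image_le)
    _ = ∑ w ∈ P, M * (P.filter (fun p => F p ≠ 0 ∧ lab p = lab w)).card := Finset.mul_sum _ _ _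
    _ ≤ ∑ w ∈ P, P.card := Finset.sum_le_sum fun w _ => h _
    _ = P.card ^ 2 := by rw [Finset.sum_const, smul_eq_mul, sq]

/-- A line not in the zero set contains many pairs of points in the same cell. -/
lemma card_pairs_line {P : Finset (ℝ × ℝ)} {D : ℕ} {F : ℝ × ℝ → ℝ} {lab : ℝ × ℝ → ℕ}
    (hF : PolyLE D F)
    (hseg : ∀ a b c e t₁ t₂ : ℝ, t₁ ≤ t₂ → (∀ t ∈ Set.Icc t₁ t₂, F (a + b * t, c + e * t) ≠ 0) →
      lab (a + b * t₁, c + e * t₁) = lab (a + b * t₂, c + e * t₂))
    {p u : ℝ × ℝ} (hu : u ≠ 0) (hnz : ∃ t, F (p.1 + u.1 * t, p.2 + u.2 * t) ≠ 0)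
    (L : Finset (ℝ × ℝ)) (hLP : L ⊆ P) (hL : ∀ w ∈ L, cr (w - p) u = 0) :
    L.card ≤ 2 * D + 1 + ((cellPairs P F lab).filter (fun x => x.1 ∈ L ∧ x.2 ∈ L)).card := by
  obtain ⟨q, hq, hq'⟩ := hF p.1 u.1 p.2 u.2
  have hq0 : q ≠ 0 := by
    rintro rfl
    obtain ⟨t, ht⟩ := hnz
    have := hq' t
    simp at this
    exact ht this.symm
  have hpar : ∀ w : ℝ × ℝ, ∃ t : ℝ, w ∈ L → w = (p.1 + u.1 * t, p.2 + u.2 * t) := by
    intro w
    by_cases hw : w ∈ L
    · obtain ⟨t, ht⟩ := exists_param hu (hL w hw)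
      exact ⟨t, fun _ => ht⟩
    · exact ⟨0, fun h => absurd h hw⟩
  choose τ hτ using hpar
  set R := q.roots.toFinset with hR
  have hRc : R.card ≤ D := (Multiset.toFinset_card_le _).trans ((Polynomial.card_roots' q).trans hq)
  have hmemR : ∀ w ∈ L, F w = 0 ↔ τ w ∈ R := by
    intro w hw
    rw [hR, Multiset.mem_toFinset, Polynomial.mem_roots hq0, Polynomial.IsRoot.def, hq', ← hτ w hw]
  set G := L.filter (fun w => F w ≠ 0) with hG
  have hτinj : ∀ w ∈ L, ∀ v ∈ L, τ w = τ v → w = v := by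
    intro w hw v hv h
    rw [hτ w hw, hτ v hv, h]
  have hLG : L.card ≤ D + G.card := by
    have h1 : (L.filter (fun w => F w = 0)).card ≤ R.card := by
      rw [← Finset.card_image_of_injOn (s := L.filter (fun w => F w = 0)) (f := τ)]
      · apply Finset.card_le_card
        intro t ht
        obtain ⟨w, hw, rfl⟩ := Finset.mem_image.mp ht
        rw [Finset.mem_filter] at hw
        exact (hmemR w hw.1).mp hw.2
      · intro w hw v hv h
        rw [Finset.coe_filter] at hw hv
        exact hτinj w hw.1 v hv.1 h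
    have h2 := Finset.card_filter_add_card_filter_not (s := L) (fun w => F w = 0)
    have h3 : L.filter (fun w => ¬ F w = 0) = G := rfl
    rw [h3] at h2
    omega
  -- the interval of a point
  let r : ℝ × ℝ → ℕ := fun w => (R.filter (fun t => t < τ w)).card
  have hr : ∀ w, r w ∈ Finset.range (D + 1) := by
    intro w
    rw [Finset.mem_range]
    exact Nat.lt_succ_of_le ((Finset.card_filter_le _ _).trans hRc)
  have hsame' : ∀ w ∈ G, ∀ v ∈ G, r w = r v → τ w ≤ τ v → lab w = lab v := by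
    intro w hw v hv hrw hle
    rw [hG, Finset.mem_filter] at hw hv
    have h1 : R.filter (fun t => t < τ w) ⊆ R.filter (fun t => t < τ v) := by
      intro t ht
      rw [Finset.mem_filter] at ht ⊢
      exact ⟨ht.1, ht.2.trans_le hle⟩
    have h2 := Finset.eq_of_subset_of_card_le h1 (le_of_eq hrw.symm)
    rw [hτ w hw.1, hτ v hv.1]
    apply hseg _ _ _ _ _ _ hle
    intro t ht h0
    rw [← hq'] at h0
    have h3 : t ∈ R := by
      rw [hR, Multiset.mem_toFinset, Polynomial.mem_roots hq0]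
      exact h0
    have h4 : t ≠ τ v := by
      rintro rfl
      exact hv.2 ((hmemR v hv.1).mpr h3)
    have h5 : t ∈ R.filter (fun t => t < τ v) := by
      rw [Finset.mem_filter]
      exact ⟨h3, lt_of_le_of_ne ht.2 h4⟩
    rw [← h2, Finset.mem_filter] at h5
    exact absurd h5.2 (not_lt.mpr ht.1)
  have hsame : ∀ w ∈ G, ∀ v ∈ G, r w = r v → lab w = lab v := by
    intro w hw v hv h
    rcases le_total (τ w) (τ v) with h1 | h1
    · exact hsame' w hw v hv h h1
    · exact (hsame' v hv w hw h.symm h1).symm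
  -- representatives
  have hrep : ∀ i : ℕ, ∃ v : ℝ × ℝ, ∀ w ∈ G, r w = i → v ∈ G ∧ r v = i := by
    intro i
    by_cases h : ∃ w ∈ G, r w = i
    · obtain ⟨w, hw, hw'⟩ := h
      exact ⟨w, fun _ _ _ => ⟨hw, hw'⟩⟩
    · push Not at h
      exact ⟨0, fun w hw hw' => absurd hw' (h w hw)⟩
  choose ρ hρ using hrep
  set T := G.filter (fun w => w ≠ ρ (r w)) with hT
  have hGT : G.card ≤ D + 1 + T.card := by
    have h1 : (G.filter (fun w => w = ρ (r w))).card ≤ ((Finset.range (D + 1)).image ρ).card := by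
      apply Finset.card_le_card
      intro w hw
      rw [Finset.mem_filter] at hw
      rw [Finset.mem_image]
      exact ⟨r w, hr w, hw.2.symm⟩
    have h2 : ((Finset.range (D + 1)).image ρ).card ≤ D + 1 := by
      simpa using Finset.card_image_le (s := Finset.range (D + 1)) (f := ρ)
    have h3 := Finset.card_filter_add_card_filter_not (s := G) (fun w => w = ρ (r w))
    have h4 : G.filter (fun w => ¬ w = ρ (r w)) = T := rfl
    rw [h4] at h3
    omega
  have hTc : T.card ≤ ((cellPairs P F lab).filter (fun x => x.1 ∈ L ∧ x.2 ∈ L)).card := by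
    rw [← Finset.card_image_of_injOn (s := T) (f := fun w => (ρ (r w), w))]
    · apply Finset.card_le_card
      intro x hx
      obtain ⟨w, hw, rfl⟩ := Finset.mem_image.mp hx
      rw [hT, Finset.mem_filter] at hw
      obtain ⟨hwG, hwne⟩ := hw
      obtain ⟨h1, h2⟩ := hρ (r w) w hwG rfl
      have h3 := hsame _ h1 _ hwG h2
      rw [hG, Finset.mem_filter] at hwG h1
      simp only [cellPairs, Finset.mem_filter, Finset.mem_product]
      exact ⟨⟨⟨hLP h1.1, hLP hwG.1⟩, hwne.symm, hwG.2, h3⟩, h1.1, hwG.1⟩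
    · intro w _ v _ h
      exact (Prod.ext_iff.mp h).2
  omega

/-- Two points determine the line. -/
lemma lineOf_unique {P : Finset (ℝ × ℝ)} {p q p' q' w v : ℝ × ℝ} (hpq : p ≠ q) (hpq' : p' ≠ q')
    (hwv : w ≠ v) (hw : w ∈ lineOf P p q) (hv : v ∈ lineOf P p q) (hw' : w ∈ lineOf P p' q')
    (hv' : v ∈ lineOf P p' q') : lineOf P p q = lineOf P p' q' := by
  have key : ∀ p q : ℝ × ℝ, p ≠ q → w ∈ lineOf P p q → v ∈ lineOf P p q →
      lineOf P p q = lineOf P w v := by
    intro p q hpq hw hv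
    have hu : q - p ≠ 0 := sub_ne_zero.mpr hpq.symm
    simp only [lineOf, Finset.mem_filter] at hw hv
    obtain ⟨t₁, h1⟩ := exists_param hu (col_iff.mp hw.2)
    obtain ⟨t₂, h2⟩ := exists_param hu (col_iff.mp hv.2)
    have ht : t₂ - t₁ ≠ 0 := by
      intro h
      apply hwv
      rw [h1, h2, sub_eq_zero.mp h]
    ext z
    simp only [lineOf, Finset.mem_filter, and_congr_right_iff]
    intro _
    rw [col_iff, col_iff]
    have h3 : cr (z - w) (v - w) = (t₂ - t₁) * cr (z - p) (q - p) := by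
      rw [h1, h2]
      simp only [cr, Prod.fst_sub, Prod.snd_sub]
      ring
    rw [h3]
    constructor
    · intro h; rw [h, mul_zero]
    · intro h
      rcases mul_eq_zero.mp h with h | h
      · exact absurd h ht
      · exact h
  rw [key p q hpq hw hv, key p' q' hpq' hw' hv']

/-- **Szemerédi–Trotter for rich lines**, natural number form. -/
theorem rich_lines_nat (P : Finset (ℝ × ℝ)) (k : ℕ) (hkP : k ^ 2 ≤ P.card)
    (F : Finset (Finset (ℝ × ℝ)))
    (hF : ∀ l ∈ F, ∃ p ∈ P, ∃ q ∈ P, p ≠ q ∧ l = lineOf P p q ∧ k ≤ l.card) :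
    F.card * k ^ 3 ≤ 100000 * P.card ^ 2 := by
  -- parametrise the lines
  have hpar : ∀ l : Finset (ℝ × ℝ), ∃ x : (ℝ × ℝ) × (ℝ × ℝ), l ∈ F → x.1 ∈ P ∧ x.2 ∈ P ∧
      x.1 ≠ x.2 ∧ l = lineOf P x.1 x.2 ∧ k ≤ l.card := by
    intro l
    by_cases hl : l ∈ F
    · obtain ⟨p, hp, q, hq, h⟩ := hF l hl
      exact ⟨(p, q), fun _ => ⟨hp, hq, h⟩⟩
    · exact ⟨(0, 0), fun h => absurd h hl⟩
  choose x hx using hpar
  rcases Nat.lt_or_ge k 28 with hk | hk
  · -- few points
    have h1 : F.card ≤ P.card ^ 2 := by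
      have h2 : F ⊆ (P ×ˢ P).image (fun x => lineOf P x.1 x.2) := by
        intro l hl
        obtain ⟨h1, h2, -, h3, -⟩ := hx l hl
        rw [Finset.mem_image]
        exact ⟨x l, Finset.mem_product.mpr ⟨h1, h2⟩, h3.symm⟩
      calc F.card ≤ _ := Finset.card_le_card h2
        _ ≤ _ := Finset.card_image_le
        _ = P.card ^ 2 := by rw [Finset.card_product, sq]
    calc F.card * k ^ 3 ≤ P.card ^ 2 * 28 ^ 3 :=
          Nat.mul_le_mul h1 (Nat.pow_le_pow_left hk.le 3)
      _ ≤ 100000 * P.card ^ 2 := by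
          rw [mul_comm]; exact Nat.mul_le_mul_right _ (by norm_num)
  · -- choose the number of cells
    obtain ⟨s, hs1, hs2⟩ : ∃ s, 28 * 2 ^ s ≤ k ∧ k < 56 * 2 ^ s := by
      refine ⟨Nat.log 2 (k / 28), ?_, ?_⟩
      · have h1 : k / 28 ≠ 0 := by omega
        have h2 := Nat.pow_log_le_self 2 h1
        omega
      · have h2 := Nat.lt_pow_succ_log_self (b := 2) (by norm_num) (k / 28)
        rw [pow_succ] at h2
        omega
    obtain ⟨D, hD, f, lab, hf, hf0, hlab, hseg, hcard⟩ := part_pow P s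
    set A := F.filter (fun l => ∀ t : ℝ, f ((x l).1.1 + ((x l).2 - (x l).1).1 * t,
      (x l).1.2 + ((x l).2 - (x l).1).2 * t) = 0) with hA
    set B := F.filter (fun l => ¬ ∀ t : ℝ, f ((x l).1.1 + ((x l).2 - (x l).1).1 * t,
      (x l).1.2 + ((x l).2 - (x l).1).2 * t) = 0) with hB
    have hAB : F.card = A.card + B.card :=
      (Finset.card_filter_add_card_filter_not (s := F) _).symm
    have hline : ∀ l ∈ F, ∀ w, w ∈ l ↔ w ∈ P ∧ cr (w - (x l).1) ((x l).2 - (x l).1) = 0 := by
      intro l hl w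
      obtain ⟨-, -, -, h3, -⟩ := hx l hl
      conv_lhs => rw [h3]
      rw [lineOf, Finset.mem_filter, col_iff]
    have hAc : A.card ≤ D := by
      apply card_lines_in_zero hf hf0 A (fun l => (x l).1) (fun l => (x l).2 - (x l).1)
      · intro l hl
        rw [hA, Finset.mem_filter] at hl
        obtain ⟨-, -, h, -, -⟩ := hx l hl.1
        exact sub_ne_zero.mpr h.symm
      · intro l hl t
        rw [hA, Finset.mem_filter] at hl
        exact hl.2 t
      · intro l hl m hm hlm
        rw [hA, Finset.mem_filter] at hl hm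
        by_contra hcon
        push Not at hcon
        apply hlm
        -- `l ⊆ m`, and two points determine the line
        have hsub : ∀ w ∈ l, w ∈ m := by
          intro w hw
          rw [hline l hl.1] at hw
          rw [hline m hm.1]
          exact ⟨hw.1, hcon w hw.2⟩
        obtain ⟨h1, h2, h3, h4, -⟩ := hx l hl.1
        obtain ⟨g1, g2, g3, g4, -⟩ := hx m hm.1
        have e1 : (x l).1 ∈ l := by
          rw [hline l hl.1]
          refine ⟨h1, ?_⟩
          simp [cr]
        have e2 : (x l).2 ∈ l := by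
          rw [hline l hl.1]
          refine ⟨h2, ?_⟩
          simp only [cr]
          ring
        have e3 := hsub _ e1
        have e4 := hsub _ e2
        have e1' : (x l).1 ∈ lineOf P (x l).1 (x l).2 := by rw [← h4]; exact e1
        have e2' : (x l).2 ∈ lineOf P (x l).1 (x l).2 := by rw [← h4]; exact e2
        have e3' : (x l).1 ∈ lineOf P (x m).1 (x m).2 := by rw [← g4]; exact e3
        have e4' : (x l).2 ∈ lineOf P (x m).1 (x m).2 := by rw [← g4]; exact e4
        exact h4.trans ((lineOf_unique h3 g3 h3 e1' e2' e3' e4').trans g4.symm)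
    -- pairs on lines of `B`
    have hBc : B.card * k ≤ 2 * (cellPairs P f lab).card := by
      have h1 : ∀ l ∈ B, k ≤ 2 * ((cellPairs P f lab).filter (fun y => y.1 ∈ l ∧ y.2 ∈ l)).card := by
        intro l hl
        rw [hB, Finset.mem_filter] at hl
        obtain ⟨hlF, hl2⟩ := hl
        obtain ⟨-, -, h3, h4, h5⟩ := hx l hlF
        push Not at hl2
        have h6 := card_pairs_line (P := P) hf hseg (sub_ne_zero.mpr h3.symm) hl2 l
          (fun w hw => ((hline l hlF w).mp hw).1) (fun w hw => ((hline l hlF w).mp hw).2)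
        omega
      have h2 : ∑ l ∈ B, ((cellPairs P f lab).filter (fun y => y.1 ∈ l ∧ y.2 ∈ l)).card ≤
          (cellPairs P f lab).card := by
        rw [← Finset.card_biUnion]
        · apply Finset.card_le_card
          intro y hy
          obtain ⟨l, -, hl⟩ := Finset.mem_biUnion.mp hy
          exact (Finset.mem_filter.mp hl).1
        · intro l hl m hm hlm
          rw [Function.onFun, Finset.disjoint_left]
          intro y hy1 hy2
          rw [Finset.mem_filter] at hy1 hy2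
          apply hlm
          rw [hB, Finset.mem_coe, Finset.mem_filter] at hl hm
          obtain ⟨-, -, h3, h4, -⟩ := hx l hl.1
          obtain ⟨-, -, g3, g4, -⟩ := hx m hm.1
          have hne : y.1 ≠ y.2 := by
            have := hy1.1
            simp only [cellPairs, Finset.mem_filter] at this
            exact this.2.1
          have e1 : y.1 ∈ lineOf P (x l).1 (x l).2 := by rw [← h4]; exact hy1.2.1
          have e2 : y.2 ∈ lineOf P (x l).1 (x l).2 := by rw [← h4]; exact hy1.2.2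
          have e3 : y.1 ∈ lineOf P (x m).1 (x m).2 := by rw [← g4]; exact hy2.2.1
          have e4 : y.2 ∈ lineOf P (x m).1 (x m).2 := by rw [← g4]; exact hy2.2.2
          exact h4.trans ((lineOf_unique h3 g3 hne e1 e2 e3 e4).trans g4.symm)
      calc B.card * k = ∑ l ∈ B, k := by rw [Finset.sum_const, smul_eq_mul]
        _ ≤ ∑ l ∈ B, 2 * ((cellPairs P f lab).filter (fun y => y.1 ∈ l ∧ y.2 ∈ l)).card :=
            Finset.sum_le_sum h1
        _ = 2 * ∑ l ∈ B, ((cellPairs P f lab).filter (fun y => y.1 ∈ l ∧ y.2 ∈ l)).card := by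
            rw [Finset.mul_sum]
        _ ≤ _ := Nat.mul_le_mul_left _ h2
    have hcp := card_cellPairs hcard
    have h4 : (4 : ℕ) ^ s = 2 ^ s * 2 ^ s := by
      rw [← mul_pow]
      norm_num
    rw [h4] at hcp
    set m := 2 ^ s with hm
    -- arithmetic
    have hA3 : A.card * k ^ 3 ≤ P.card ^ 2 := by
      calc A.card * k ^ 3 ≤ k * k ^ 3 := Nat.mul_le_mul_right _ (by omega)
        _ = (k ^ 2) ^ 2 := by ring
        _ ≤ P.card ^ 2 := Nat.pow_le_pow_left hkP 2
    have hB3 : B.card * k ^ 3 ≤ 6272 * P.card ^ 2 := by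
      calc B.card * k ^ 3 = (B.card * k) * (k * k) := by ring
        _ ≤ (2 * (cellPairs P f lab).card) * ((56 * m) * (56 * m)) :=
            Nat.mul_le_mul hBc (Nat.mul_le_mul hs2.le hs2.le)
        _ = 6272 * (m * m * (cellPairs P f lab).card) := by ring
        _ ≤ 6272 * P.card ^ 2 := Nat.mul_le_mul_left _ hcp
    calc F.card * k ^ 3 = A.card * k ^ 3 + B.card * k ^ 3 := by rw [hAB, add_mul]
      _ ≤ P.card ^ 2 + 6272 * P.card ^ 2 := Nat.add_le_add hA3 hB3
      _ ≤ 100000 * P.card ^ 2 := by nlinarith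

/-- **Szemerédi–Trotter for rich lines**. -/
theorem rich_lines : ∃ C : ℝ, 0 < C ∧ ∀ (P : Finset (ℝ × ℝ)) (k : ℕ), 1 ≤ k → k ^ 2 ≤ P.card →
    ∀ F : Finset (Finset (ℝ × ℝ)),
      (∀ l ∈ F, ∃ p ∈ P, ∃ q ∈ P, p ≠ q ∧ l = lineOf P p q ∧ k ≤ l.card) →
      (F.card : ℝ) * (k : ℝ) ^ 3 ≤ C * (P.card : ℝ) ^ 2 := by
  refine ⟨100000, by norm_num, fun P k _ hkP F hF => ?_⟩
  exact_mod_cast rich_lines_nat P k hkP F hF

end

end Pool.H42.ST
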