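import Mathlib
import Pool.Agent.H42.ST.RichLines

/-!
# Collinear or general-position subsets: the geometric part

From the Szemerédi–Trotter bounds for the third and fourth moments of the lines spanned by a planar
point set and a combinatorial sampling theorem (taken here as the hypothesis `SampleStmt`) to the
order of magnitude of the function of Erdős and Gowers.
-/

open Finset

namespace Pool.H42.ST

noncomputable section

open scoped Classical

/-- two points lie on at most one line -/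
def Lin {V : Type} (L : Finset (Finset V)) : Prop :=
  ∀ l ∈ L, ∀ l' ∈ L, ∀ x y : V, x ≠ y → x ∈ l → y ∈ l → x ∈ l' → y ∈ l' → l = l'

/-- The combinatorial sampling theorem, as a statement. -/
def SampleStmt : Prop :=
  ∀ A : ℝ, 1 ≤ A → ∃ c > 0, ∃ N0 : ℝ, 1 ≤ N0 ∧ ∀ (V : Type) [Fintype V] [DecidableEq V]
    (L : Finset (Finset V)), N0 ≤ (Fintype.card V : ℝ) → Lin L →
    (∑ l ∈ L, (l.card : ℝ) ^ 3 ≤ A * (Fintype.card V : ℝ) ^ 2 * Real.log (Fintype.card V)) →
    (∑ l ∈ L, (l.card : ℝ) ^ 4 ≤ A * (Fintype.card V : ℝ) ^ 2 * Real.sqrt (Fintype.card V)) →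
    ∃ S : Finset V, (∀ l ∈ L, (l ∩ S).card ≤ 2) ∧
      c * Real.sqrt (Fintype.card V) ≤ (S.card : ℝ)

/-! ### Moments of the lines -/

lemma pow3_le (m : ℕ) : (m : ℝ) ^ 3 ≤ ∑ k ∈ Icc 1 m, 3 * (k : ℝ) ^ 2 := by
  induction m with
  | zero => simp
  | succ m ih =>
    rw [Finset.sum_Icc_succ_top (by omega)]
    push_cast
    have : (0 : ℝ) ≤ m := Nat.cast_nonneg m
    nlinarith

lemma pow4_le (m : ℕ) : (m : ℝ) ^ 4 ≤ ∑ k ∈ Icc 1 m, 4 * (k : ℝ) ^ 3 := by
  induction m with
  | zero => simp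
  | succ m ih =>
    rw [Finset.sum_Icc_succ_top (by omega)]
    push_cast
    have : (0 : ℝ) ≤ m := Nat.cast_nonneg m
    have h2 : (0 : ℝ) ≤ (m : ℝ) ^ 2 := by positivity
    nlinarith

/-- Summation by layers. -/
lemma sum_layers {α : Type} (L : Finset (Finset α)) (M : ℕ) (hM : ∀ l ∈ L, l.card ≤ M)
    (g : ℕ → ℝ) : ∑ l ∈ L, ∑ k ∈ Icc 1 l.card, g k =
      ∑ k ∈ Icc 1 M, g k * ((L.filter (fun l => k ≤ l.card)).card : ℝ) := by
  have h1 : ∀ l ∈ L, ∑ k ∈ Icc 1 l.card, g k = ∑ k ∈ Icc 1 M, if k ≤ l.card then g k else 0 := by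
    intro l hl
    rw [← Finset.sum_filter]
    apply Finset.sum_congr _ (fun _ _ => rfl)
    ext k
    rw [Finset.mem_filter, Finset.mem_Icc, Finset.mem_Icc]
    have := hM l hl
    constructor
    · rintro ⟨h1, h2⟩
      exact ⟨⟨h1, h2.trans this⟩, h2⟩
    · rintro ⟨⟨h1, _⟩, h2⟩
      exact ⟨h1, h2⟩
  rw [Finset.sum_congr rfl h1, Finset.sum_comm]
  apply Finset.sum_congr rfl
  intro k _
  rw [← Finset.sum_filter, Finset.sum_const, nsmul_eq_mul, mul_comm]

/-- All the lines spanned by `P`. -/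
def lines (P : Finset (ℝ × ℝ)) : Finset (Finset (ℝ × ℝ)) :=
  P.offDiag.image (fun x => lineOf P x.1 x.2)

lemma mem_lines {P : Finset (ℝ × ℝ)} {l : Finset (ℝ × ℝ)} :
    l ∈ lines P ↔ ∃ p ∈ P, ∃ q ∈ P, p ≠ q ∧ l = lineOf P p q := by
  simp only [lines, Finset.mem_image, Finset.mem_offDiag]
  constructor
  · rintro ⟨x, ⟨hp, hq, hpq⟩, rfl⟩
    exact ⟨x.1, hp, x.2, hq, hpq, rfl⟩
  · rintro ⟨p, hp, q, hq, hpq, rfl⟩
    exact ⟨(p, q), ⟨hp, hq, hpq⟩, rfl⟩

lemma card_layer (P : Finset (ℝ × ℝ)) (k : ℕ) (hk : k ^ 2 ≤ P.card) :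
    (((lines P).filter (fun l => k ≤ l.card)).card : ℝ) * (k : ℝ) ^ 3 ≤
      100000 * (P.card : ℝ) ^ 2 := by
  have h := rich_lines_nat P k hk ((lines P).filter (fun l => k ≤ l.card)) (by
    intro l hl
    rw [Finset.mem_filter, mem_lines] at hl
    obtain ⟨⟨p, hp, q, hq, hpq, h⟩, h2⟩ := hl
    exact ⟨p, hp, q, hq, hpq, h, h2⟩)
  exact_mod_cast h

lemma moment3 (P : Finset (ℝ × ℝ)) (M : ℕ) (hM : M ^ 2 ≤ P.card)
    (hl : ∀ l ∈ lines P, l.card ≤ M) (h3 : 3 ≤ P.card) :
    ∑ l ∈ lines P, (l.card : ℝ) ^ 3 ≤ 600000 * (P.card : ℝ) ^ 2 * Real.log P.card := by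
  have hlog : 1 ≤ Real.log P.card := by
    rw [Real.le_log_iff_exp_le (by positivity)]
    have h1 := Real.exp_one_lt_d9
    have h2 : (3 : ℝ) ≤ P.card := by exact_mod_cast h3
    linarith
  have hlogM : Real.log M ≤ Real.log P.card := by
    rcases Nat.eq_zero_or_pos M with h | h
    · rw [h]; simp only [Nat.cast_zero, Real.log_zero]; linarith
    · apply Real.log_le_log (by exact_mod_cast h)
      have : M ≤ P.card := by nlinarith
      exact_mod_cast this
  calc ∑ l ∈ lines P, (l.card : ℝ) ^ 3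
      ≤ ∑ l ∈ lines P, ∑ k ∈ Icc 1 l.card, 3 * (k : ℝ) ^ 2 :=
        Finset.sum_le_sum fun l _ => pow3_le _
    _ = ∑ k ∈ Icc 1 M, 3 * (k : ℝ) ^ 2 * (((lines P).filter (fun l => k ≤ l.card)).card : ℝ) :=
        sum_layers _ M hl _
    _ ≤ ∑ k ∈ Icc 1 M, 300000 * (P.card : ℝ) ^ 2 * ((k : ℝ))⁻¹ := by
        apply Finset.sum_le_sum
        intro k hk
        rw [Finset.mem_Icc] at hk
        have hk0 : (0 : ℝ) < k := by exact_mod_cast hk.1
        have h1 := card_layer P k ((Nat.pow_le_pow_left hk.2 2).trans hM)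
        rw [← div_eq_mul_inv, le_div_iff₀ hk0]
        calc 3 * (k : ℝ) ^ 2 * (((lines P).filter (fun l => k ≤ l.card)).card : ℝ) * k
            = 3 * ((((lines P).filter (fun l => k ≤ l.card)).card : ℝ) * (k : ℝ) ^ 3) := by ring
          _ ≤ 3 * (100000 * (P.card : ℝ) ^ 2) := by gcongr
          _ = 300000 * (P.card : ℝ) ^ 2 := by ring
    _ = 300000 * (P.card : ℝ) ^ 2 * ∑ k ∈ Icc 1 M, ((k : ℝ))⁻¹ := by rw [Finset.mul_sum]
    _ ≤ 300000 * (P.card : ℝ) ^ 2 * (1 + Real.log M) := by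
        gcongr
        have h := harmonic_le_one_add_log M
        rw [harmonic_eq_sum_Icc] at h
        push_cast at h
        exact h
    _ ≤ 300000 * (P.card : ℝ) ^ 2 * (2 * Real.log P.card) := by
        gcongr
        linarith
    _ = _ := by ring

lemma moment4 (P : Finset (ℝ × ℝ)) (M : ℕ) (hM : M ^ 2 ≤ P.card)
    (hl : ∀ l ∈ lines P, l.card ≤ M) :
    ∑ l ∈ lines P, (l.card : ℝ) ^ 4 ≤ 600000 * (P.card : ℝ) ^ 2 * Real.sqrt P.card := by
  have hMs : (M : ℝ) ≤ Real.sqrt P.card := by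
    apply Real.le_sqrt_of_sq_le
    exact_mod_cast hM
  calc ∑ l ∈ lines P, (l.card : ℝ) ^ 4
      ≤ ∑ l ∈ lines P, ∑ k ∈ Icc 1 l.card, 4 * (k : ℝ) ^ 3 :=
        Finset.sum_le_sum fun l _ => pow4_le _
    _ = ∑ k ∈ Icc 1 M, 4 * (k : ℝ) ^ 3 * (((lines P).filter (fun l => k ≤ l.card)).card : ℝ) :=
        sum_layers _ M hl _
    _ ≤ ∑ k ∈ Icc 1 M, 400000 * (P.card : ℝ) ^ 2 := by
        apply Finset.sum_le_sum
        intro k hk
        rw [Finset.mem_Icc] at hk
        have h1 := card_layer P k ((Nat.pow_le_pow_left hk.2 2).trans hM)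
        calc 4 * (k : ℝ) ^ 3 * (((lines P).filter (fun l => k ≤ l.card)).card : ℝ)
            = 4 * ((((lines P).filter (fun l => k ≤ l.card)).card : ℝ) * (k : ℝ) ^ 3) := by ring
          _ ≤ 4 * (100000 * (P.card : ℝ) ^ 2) := by gcongr
          _ = 400000 * (P.card : ℝ) ^ 2 := by ring
    _ = 400000 * (P.card : ℝ) ^ 2 * M := by
        rw [Finset.sum_const, nsmul_eq_mul, Nat.card_Icc]
        rw [Nat.add_sub_cancel]
        ring
    _ ≤ 600000 * (P.card : ℝ) ^ 2 * Real.sqrt P.card := by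
        have h1 : (0 : ℝ) ≤ (P.card : ℝ) ^ 2 := by positivity
        have h2 : (0 : ℝ) ≤ Real.sqrt P.card := Real.sqrt_nonneg _
        calc 400000 * (P.card : ℝ) ^ 2 * M ≤ 400000 * (P.card : ℝ) ^ 2 * Real.sqrt P.card := by
              gcongr
          _ ≤ 600000 * (P.card : ℝ) ^ 2 * Real.sqrt P.card := by
              gcongr
              norm_num

/-! ### General position subsets -/

lemma self_mem_lineOf {P : Finset (ℝ × ℝ)} {p q : ℝ × ℝ} (hp : p ∈ P) : p ∈ lineOf P p q := by
  rw [lineOf, Finset.mem_filter]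
  refine ⟨hp, ?_⟩
  unfold col
  ring

lemma right_mem_lineOf {P : Finset (ℝ × ℝ)} {p q : ℝ × ℝ} (hq : q ∈ P) : q ∈ lineOf P p q := by
  rw [lineOf, Finset.mem_filter]
  refine ⟨hq, ?_⟩
  unfold col
  ring

/-- **General position subsets** of planar sets without rich lines. -/
theorem general_position (hB : SampleStmt) : ∃ c > 0, ∃ N0 : ℝ, 1 ≤ N0 ∧
    ∀ (P : Finset (ℝ × ℝ)) (M : ℕ), N0 ≤ P.card → M ^ 2 ≤ P.card →
      (∀ p ∈ P, ∀ q ∈ P, p ≠ q → (lineOf P p q).card ≤ M) →
      ∃ S ⊆ P, (∀ a ∈ S, ∀ b ∈ S, ∀ d ∈ S, a ≠ b → b ≠ d → a ≠ d → ¬ col a b d) ∧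
        c * Real.sqrt P.card ≤ (S.card : ℝ) := by
  obtain ⟨c, hc, N0, hN0, h⟩ := hB 600000 (by norm_num)
  refine ⟨c, hc, max N0 3, le_max_of_le_left hN0, ?_⟩
  intro P M hP hM hline
  have hP0 : N0 ≤ P.card := (le_max_left _ _).trans hP
  have hP3 : 3 ≤ P.card := by
    have : (3 : ℝ) ≤ P.card := (le_max_right _ _).trans hP
    exact_mod_cast this
  have hlM : ∀ l ∈ lines P, l.card ≤ M := by
    intro l hl
    obtain ⟨p, hp, q, hq, hpq, rfl⟩ := mem_lines.mp hl
    exact hline p hp q hq hpq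
  have hlP : ∀ l ∈ lines P, l ⊆ P := by
    intro l hl
    obtain ⟨p, hp, q, hq, hpq, rfl⟩ := mem_lines.mp hl
    exact Finset.filter_subset _ _
  -- transport to the subtype
  let φ : Finset (ℝ × ℝ) → Finset {x // x ∈ P} := fun l => l.subtype (fun x => x ∈ P)
  have hφ : ∀ l x, x ∈ φ l ↔ (x : ℝ × ℝ) ∈ l := by
    intro l x
    exact Finset.mem_subtype
  have hφc : ∀ l ∈ lines P, (φ l).card = l.card := by
    intro l hl
    rw [Finset.card_subtype, Finset.filter_true_of_mem (hlP l hl)]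
  have hφi : Set.InjOn φ (lines P : Set (Finset (ℝ × ℝ))) := by
    intro l hl l' hl' hll
    ext x
    constructor
    · intro hx
      have h1 := (hφ l ⟨x, hlP l hl hx⟩).mpr hx
      rw [hll] at h1
      exact (hφ l' _).mp h1
    · intro hx
      have h1 := (hφ l' ⟨x, hlP l' hl' hx⟩).mpr hx
      rw [← hll] at h1
      exact (hφ l _).mp h1
  set L := (lines P).image φ with hL
  have hcard : Fintype.card {x // x ∈ P} = P.card := Fintype.card_coe P
  have hlin : Lin L := by
    intro l hl l' hl' x y hxy hx hy hx' hy'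
    rw [hL, Finset.mem_image] at hl hl'
    obtain ⟨l, hl, rfl⟩ := hl
    obtain ⟨l', hl', rfl⟩ := hl'
    rw [hφ] at hx hy hx' hy'
    obtain ⟨p, hp, q, hq, hpq, rfl⟩ := mem_lines.mp hl
    obtain ⟨p', hp', q', hq', hpq', rfl⟩ := mem_lines.mp hl'
    have hxy' : (x : ℝ × ℝ) ≠ y := fun h => hxy (Subtype.ext h)
    rw [lineOf_unique hpq hpq' hxy' hx hy hx' hy']
  have hsum : ∀ j : ℕ, ∑ l ∈ L, (l.card : ℝ) ^ j = ∑ l ∈ lines P, (l.card : ℝ) ^ j := by
    intro j
    rw [hL, Finset.sum_image (fun l hl l' hl' h => hφi hl hl' h)]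
    apply Finset.sum_congr rfl
    intro l hl
    rw [hφc l hl]
  obtain ⟨S, hS1, hS2⟩ := h {x // x ∈ P} L (by rw [hcard]; exact hP0) hlin
    (by rw [hsum, hcard]; exact moment3 P M hM hlM hP3)
    (by rw [hsum, hcard]; exact moment4 P M hM hlM)
  rw [hcard] at hS2
  refine ⟨S.map (Function.Embedding.subtype _), ?_, ?_, ?_⟩
  · intro x hx
    rw [Finset.mem_map] at hx
    obtain ⟨y, -, rfl⟩ := hx
    exact y.2
  · intro a ha b hb d hd hab hbd had hcol
    rw [Finset.mem_map] at ha hb hd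
    obtain ⟨a, ha, rfl⟩ := ha
    obtain ⟨b, hb, rfl⟩ := hb
    obtain ⟨d, hd, rfl⟩ := hd
    simp only [Function.Embedding.coe_subtype] at hab hbd had hcol
    have hl : lineOf P a b ∈ lines P := mem_lines.mpr ⟨a, a.2, b, b.2, hab, rfl⟩
    have h1 := hS1 (φ (lineOf P a b)) (by rw [hL]; exact Finset.mem_image_of_mem _ hl)
    have h2 : ({a, b, d} : Finset {x // x ∈ P}) ⊆ φ (lineOf P a b) ∩ S := by
      intro x hx
      rw [Finset.mem_inter, hφ]
      simp only [Finset.mem_insert, Finset.mem_singleton] at hx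
      rcases hx with rfl | rfl | rfl
      · exact ⟨self_mem_lineOf x.2, ha⟩
      · exact ⟨right_mem_lineOf x.2, hb⟩
      · refine ⟨?_, hd⟩
        rw [lineOf, Finset.mem_filter]
        exact ⟨x.2, hcol⟩
    have h3 : ({a, b, d} : Finset {x // x ∈ P}).card = 3 := by
      rw [Finset.card_eq_three]
      exact ⟨a, b, d, fun h => hab (by rw [h]), fun h => had (by rw [h]),
        fun h => hbd (by rw [h]), rfl⟩
    have h4 := Finset.card_le_card h2
    omega
  · rw [Finset.card_map]
    exact hS2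

/-! ### Collinearity in the Euclidean plane -/

/-- The coordinates. -/
def crd (x : EuclideanSpace ℝ (Fin 2)) : ℝ × ℝ := (x 0, x 1)

lemma crd_injective : Function.Injective crd := by
  intro x y h
  simp only [crd, Prod.mk.injEq] at h
  ext i
  fin_cases i
  · exact h.1
  · exact h.2

lemma col_of_collinear {a b d : EuclideanSpace ℝ (Fin 2)}
    (h : Collinear ℝ ({a, b, d} : Set (EuclideanSpace ℝ (Fin 2)))) :
    col (crd a) (crd b) (crd d) := by
  rw [collinear_iff_of_mem (p₀ := a) (by simp)] at h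
  obtain ⟨v, hv⟩ := h
  obtain ⟨r, hr⟩ := hv b (by simp)
  obtain ⟨s, hs⟩ := hv d (by simp)
  simp only [col, crd, hr, hs, vadd_eq_add, PiLp.add_apply, PiLp.smul_apply, smul_eq_mul]
  ring

lemma collinear_of_col {Q : Set (EuclideanSpace ℝ (Fin 2))} {p q : EuclideanSpace ℝ (Fin 2)}
    (hpq : p ≠ q) (h : ∀ w ∈ Q, col (crd p) (crd q) (crd w)) : Collinear ℝ Q := by
  rcases Q.eq_empty_or_nonempty with rfl | ⟨w0, hw0⟩
  · exact collinear_empty ℝ _
  have hu : crd q - crd p ≠ 0 := sub_ne_zero.mpr fun h => hpq (crd_injective h.symm)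
  have key : ∀ w ∈ Q, ∃ t : ℝ, w = t • (q - p) + p := by
    intro w hw
    obtain ⟨t, ht⟩ := exists_param hu (col_iff.mp (h w hw))
    refine ⟨t, ?_⟩
    apply crd_injective
    rw [ht]
    simp only [crd, PiLp.add_apply, PiLp.smul_apply, PiLp.sub_apply, smul_eq_mul, Prod.fst_sub,
      Prod.snd_sub, Prod.mk.injEq]
    constructor <;> ring
  rw [collinear_iff_of_mem hw0]
  refine ⟨q - p, fun w hw => ?_⟩
  obtain ⟨t, ht⟩ := key w hw
  obtain ⟨t0, ht0⟩ := key w0 hw0
  refine ⟨t - t0, ?_⟩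
  rw [vadd_eq_add]
  conv_lhs => rw [ht]
  conv_rhs => rw [ht0]
  rw [sub_smul]
  abel

/-! ### The function of Erdős and Gowers -/

/-- Every set of `N` points of the plane contains `n` collinear points or `n` points no three of
which are collinear. -/
def Forces (n N : ℕ) : Prop :=
  ∀ P : Finset (EuclideanSpace ℝ (Fin 2)), P.card = N →
    (∃ Q ⊆ P, Q.card = n ∧ Collinear ℝ (Q : Set (EuclideanSpace ℝ (Fin 2)))) ∨
    (∃ Q ⊆ P, Q.card = n ∧ ∀ a ∈ Q, ∀ b ∈ Q, ∀ c ∈ Q, a ≠ b → b ≠ c → a ≠ c →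
      ¬ Collinear ℝ ({a, b, c} : Set (EuclideanSpace ℝ (Fin 2))))

/-- The least number of points which forces `n` collinear points or `n` points in general
position. -/
def f (n : ℕ) : ℕ := sInf {N | Forces n N}

/-- **Upper bound**. -/
theorem forces_of_sample (hB : SampleStmt) : ∃ C : ℕ, 0 < C ∧ ∀ n : ℕ, 3 ≤ n →
    Forces n (C * n ^ 2) := by
  obtain ⟨c, hc, N0, hN0, h⟩ := general_position hB
  obtain ⟨C, hC⟩ := exists_nat_ge (max N0 (1 / c ^ 2))
  have hC1 : N0 ≤ C := (le_max_left _ _).trans hC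
  have hC2 : 1 / c ^ 2 ≤ C := (le_max_right _ _).trans hC
  have hC0 : (1 : ℝ) ≤ C := hN0.trans hC1
  have hC0' : 1 ≤ C := by exact_mod_cast hC0
  refine ⟨C, hC0', fun n hn P hP => ?_⟩
  by_cases hcol : ∃ Q ⊆ P, Q.card = n ∧ Collinear ℝ (Q : Set (EuclideanSpace ℝ (Fin 2)))
  · exact Or.inl hcol
  right
  set P' := P.image crd with hP'
  have hcard : P'.card = C * n ^ 2 := by
    rw [hP', Finset.card_image_of_injective _ crd_injective, hP]
  have hn1 : (1 : ℝ) ≤ (n : ℝ) ^ 2 := by
    have : (1 : ℝ) ≤ n := by exact_mod_cast (by omega : 1 ≤ n)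
    nlinarith
  obtain ⟨S, hSP, hS1, hS2⟩ := h P' n (by
      rw [hcard]
      push_cast
      nlinarith) (by
      rw [hcard]
      calc n ^ 2 = 1 * n ^ 2 := (one_mul _).symm
        _ ≤ C * n ^ 2 := Nat.mul_le_mul_right _ hC0') (by
      intro p hp q hq hpq
      by_contra hcon
      push Not at hcon
      rw [hP', Finset.mem_image] at hp hq
      obtain ⟨p, hp, rfl⟩ := hp
      obtain ⟨q, hq, rfl⟩ := hq
      have hpq' : p ≠ q := fun h => hpq (by rw [h])
      -- pull back the line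
      set T := P.filter (fun w => col (crd p) (crd q) (crd w)) with hT
      have h1 : lineOf P' (crd p) (crd q) ⊆ T.image crd := by
        intro w hw
        rw [lineOf, Finset.mem_filter, hP', Finset.mem_image] at hw
        obtain ⟨⟨w, hw, rfl⟩, hw2⟩ := hw
        rw [Finset.mem_image]
        exact ⟨w, by rw [hT, Finset.mem_filter]; exact ⟨hw, hw2⟩, rfl⟩
      have h2 : n ≤ T.card := (hcon.le.trans (Finset.card_le_card h1)).trans Finset.card_image_le
      obtain ⟨Q, hQT, hQ⟩ := Finset.exists_subset_card_eq h2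
      apply hcol
      refine ⟨Q, hQT.trans (Finset.filter_subset _ _), hQ, collinear_of_col hpq' ?_⟩
      intro w hw
      exact (Finset.mem_filter.mp (hQT hw)).2)
  have hSn : n ≤ S.card := by
    have h1 : (n : ℝ) ≤ c * Real.sqrt P'.card := by
      rw [hcard]
      push_cast
      rw [Real.sqrt_mul (by positivity), Real.sqrt_sq (by positivity), ← mul_assoc]
      have h2 : 1 ≤ c * Real.sqrt C := by
        have h3 : 1 / c ≤ Real.sqrt C := by
          apply Real.le_sqrt_of_sq_le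
          rw [div_pow, one_pow]
          exact hC2
        calc (1 : ℝ) = c * (1 / c) := by field_simp
          _ ≤ c * Real.sqrt C := by gcongr
      calc (n : ℝ) = 1 * n := (one_mul _).symm
        _ ≤ c * Real.sqrt C * n := by gcongr
    exact_mod_cast h1.trans hS2
  -- pull back `S`
  obtain ⟨S', hS'S, hS'⟩ := Finset.exists_subset_card_eq hSn
  set Q := P.filter (fun w => crd w ∈ S') with hQ
  have hQS : Q.image crd = S' := by
    ext w
    rw [Finset.mem_image]
    constructor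
    · rintro ⟨w, hw, rfl⟩
      rw [hQ, Finset.mem_filter] at hw
      exact hw.2
    · intro hw
      have h1 := hSP (hS'S hw)
      rw [hP', Finset.mem_image] at h1
      obtain ⟨v, hv, rfl⟩ := h1
      exact ⟨v, by rw [hQ, Finset.mem_filter]; exact ⟨hv, hw⟩, rfl⟩
  refine ⟨Q, Finset.filter_subset _ _, ?_, ?_⟩
  · rw [← hS', ← hQS, Finset.card_image_of_injective _ crd_injective]
  · intro a ha b hb d hd hab hbd had hcol'
    rw [hQ, Finset.mem_filter] at ha hb hd
    exact hS1 _ (hS'S ha.2) _ (hS'S hb.2) _ (hS'S hd.2) (fun h => hab (crd_injective h))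
      (fun h => hbd (crd_injective h)) (fun h => had (crd_injective h)) (col_of_collinear hcol')

/-- the point `(i, j)` of the grid. -/
def gpt (x : ℕ × ℕ) : EuclideanSpace ℝ (Fin 2) := !₂[(x.1 : ℝ), (x.2 : ℝ)]

lemma crd_gpt (x : ℕ × ℕ) : crd (gpt x) = ((x.1 : ℝ), (x.2 : ℝ)) := by
  simp [crd, gpt]

lemma gpt_injective : Function.Injective gpt := by
  intro x y h
  have h1 : crd (gpt x) = crd (gpt y) := by rw [h]
  rw [crd_gpt, crd_gpt, Prod.mk.injEq] at h1
  exact Prod.ext (by exact_mod_cast h1.1) (by exact_mod_cast h1.2)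

/-- **Lower bound**: subsets of a grid. -/
theorem not_forces {n m N : ℕ} (hm : 2 * m < n) (hN : N ≤ m ^ 2) : ¬ Forces n N := by
  intro h
  have hgc : ((range m ×ˢ range m).image gpt).card = m ^ 2 := by
    rw [Finset.card_image_of_injective _ gpt_injective, Finset.card_product, Finset.card_range, sq]
  obtain ⟨P, hPg, hP⟩ := Finset.exists_subset_card_eq (s := (range m ×ˢ range m).image gpt) (n := N)
    (by rw [hgc]; exact hN)
  have hgrid : ∀ w ∈ P, ∃ i < m, ∃ j < m, w = gpt (i, j) := by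
    intro w hw
    have h1 := hPg hw
    rw [Finset.mem_image] at h1
    obtain ⟨⟨i, j⟩, hij, rfl⟩ := h1
    rw [Finset.mem_product, Finset.mem_range, Finset.mem_range] at hij
    exact ⟨i, hij.1, j, hij.2, rfl⟩
  -- coordinates as natural numbers
  let X : EuclideanSpace ℝ (Fin 2) → ℕ := fun w => ⌊w 0⌋₊
  let Y : EuclideanSpace ℝ (Fin 2) → ℕ := fun w => ⌊w 1⌋₊
  have hXY : ∀ i j : ℕ, X (gpt (i, j)) = i ∧ Y (gpt (i, j)) = j := by
    intro i j
    simp [X, Y, gpt]
  have hXP : ∀ w ∈ P, X w < m ∧ Y w < m ∧ w = gpt (X w, Y w) := by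
    intro w hw
    obtain ⟨i, hi, j, hj, rfl⟩ := hgrid w hw
    obtain ⟨h1, h2⟩ := hXY i j
    rw [h1, h2]
    exact ⟨hi, hj, rfl⟩
  rcases h P hP with ⟨Q, hQP, hQ, hcol⟩ | ⟨Q, hQP, hQ, hgen⟩
  · -- collinear sets are small
    have h1 : Q.card ≤ m := by
      by_cases hinj : Set.InjOn X (Q : Set (EuclideanSpace ℝ (Fin 2)))
      · calc Q.card = (Q.image X).card := (Finset.card_image_of_injOn hinj).symm
          _ ≤ (range m).card := by
            apply Finset.card_le_card
            intro i hi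
            obtain ⟨w, hw, rfl⟩ := Finset.mem_image.mp hi
            exact Finset.mem_range.mpr (hXP w (hQP hw)).1
          _ = m := Finset.card_range m
      · rw [Set.InjOn] at hinj
        push Not at hinj
        obtain ⟨a, ha, b, hb, hab, hne⟩ := hinj
        have hY : Set.InjOn Y (Q : Set (EuclideanSpace ℝ (Fin 2))) := by
          -- all points have the same first coordinate
          have hX : ∀ w ∈ Q, X w = X a := by
            intro w hw
            have hc : Collinear ℝ ({a, b, w} : Set (EuclideanSpace ℝ (Fin 2))) := by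
              apply hcol.subset
              intro z hz
              simp only [Set.mem_insert_iff, Set.mem_singleton_iff] at hz
              rcases hz with rfl | rfl | rfl
              · exact ha
              · exact hb
              · exact hw
            have h2 := col_of_collinear hc
            obtain ⟨-, -, ea⟩ := hXP a (hQP ha)
            obtain ⟨-, -, eb⟩ := hXP b (hQP hb)
            obtain ⟨-, -, ew⟩ := hXP w (hQP hw)
            rw [ea, eb, ew, crd_gpt, crd_gpt, crd_gpt] at h2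
            simp only [col] at h2
            rw [← hab] at h2
            rw [sub_self, zero_mul] at h2
            have h3 : Y b ≠ Y a := by
              intro h
              apply hne
              rw [ea, eb, hab, h]
            have h4 : ((Y b : ℝ) - Y a) ≠ 0 := by
              rw [sub_ne_zero]
              exact_mod_cast h3
            rcases mul_eq_zero.mp h2.symm with h | h
            · exact absurd h h4
            · have : (X w : ℝ) = X a := by linarith
              exact_mod_cast this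
          intro w hw v hv hwv
          rw [(hXP w (hQP hw)).2.2, (hXP v (hQP hv)).2.2, hX w hw, hX v hv, hwv]
        calc Q.card = (Q.image Y).card := (Finset.card_image_of_injOn hY).symm
          _ ≤ (range m).card := by
            apply Finset.card_le_card
            intro i hi
            obtain ⟨w, hw, rfl⟩ := Finset.mem_image.mp hi
            exact Finset.mem_range.mpr (hXP w (hQP hw)).2.1
          _ = m := Finset.card_range m
    omega
  · -- sets in general position are small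
    have h1 : Q.card ≤ 2 * m := by
      have h2 : ∀ i ∈ range m, (Q.filter (fun w => X w = i)).card ≤ 2 := by
        intro i _
        by_contra hcon
        push Not at hcon
        obtain ⟨a, b, d, ha, hb, hd, hab, had, hbd⟩ := Finset.two_lt_card_iff.mp hcon
        rw [Finset.mem_filter] at ha hb hd
        apply hgen a ha.1 b hb.1 d hd.1 hab hbd had
        apply collinear_of_col hab
        intro w hw
        obtain ⟨-, -, ea⟩ := hXP a (hQP ha.1)
        obtain ⟨-, -, eb⟩ := hXP b (hQP hb.1)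
        have hw' : w ∈ Q ∧ X w = i := by
          simp only [Set.mem_insert_iff, Set.mem_singleton_iff] at hw
          rcases hw with rfl | rfl | rfl
          · exact ha
          · exact hb
          · exact hd
        obtain ⟨-, -, ew⟩ := hXP w (hQP hw'.1)
        rw [ea, eb, ew, crd_gpt, crd_gpt, crd_gpt, ha.2, hb.2, hw'.2]
        simp [col]
      have h3 : Q.card = ∑ i ∈ range m, (Q.filter (fun w => X w = i)).card := by
        apply Finset.card_eq_sum_card_fiberwise
        intro w hw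
        exact Finset.mem_coe.mpr (Finset.mem_range.mpr (hXP w (hQP hw)).1)
      rw [h3]
      calc ∑ i ∈ range m, (Q.filter (fun w => X w = i)).card ≤ ∑ i ∈ range m, 2 :=
            Finset.sum_le_sum h2
        _ = 2 * m := by rw [Finset.sum_const, Finset.card_range, smul_eq_mul, mul_comm]
    omega

/-- **The order of magnitude** of the function of Erdős and Gowers, from the sampling theorem. -/
theorem order_of_magnitude (hB : SampleStmt) : ∃ c C : ℝ, 0 < c ∧ 0 < C ∧ ∀ n : ℕ, 3 ≤ n →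
    (∃ N, Forces n N) ∧ c * (n : ℝ) ^ 2 ≤ f n ∧ (f n : ℝ) ≤ C * (n : ℝ) ^ 2 := by
  obtain ⟨C, hC, h⟩ := forces_of_sample hB
  refine ⟨1 / 36, C, by norm_num, by exact_mod_cast hC, fun n hn => ⟨⟨_, h n hn⟩, ?_, ?_⟩⟩
  · have hf : Forces n (f n) := Nat.sInf_mem (s := {N | Forces n N}) ⟨_, h n hn⟩
    have h1 : ((n - 1) / 2) ^ 2 < f n := by
      by_contra hcon
      push Not at hcon
      exact not_forces (by omega) hcon hf
    have h2 : n ≤ 6 * ((n - 1) / 2) := by omega
    have h3 : n ^ 2 ≤ 36 * f n := by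
      calc n ^ 2 ≤ (6 * ((n - 1) / 2)) ^ 2 := Nat.pow_le_pow_left h2 2
        _ = 36 * ((n - 1) / 2) ^ 2 := by ring
        _ ≤ 36 * f n := by omega
    have h4 : (n : ℝ) ^ 2 ≤ 36 * f n := by exact_mod_cast h3
    linarith
  · have h1 : f n ≤ C * n ^ 2 := Nat.sInf_le (h n hn)
    exact_mod_cast h1

end

end Pool.H42.ST
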